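import Pool.Agent.H.MP_814ec7_co.A

namespace Pool.Agent.Results.MP_814ec7_co.Yes

def Steer {A : Type} (x : ℕ → A) (s : ℕ → Bool) : Prop :=
  ∀ b : Bool, {n | s n = b}.Infinite ∧ ∀ k, x (Nat.nth (fun n => s n = b) k) = x k

theorem result : ∃ (m : ℕ) (x : ℕ → Fin m), ∃! s : ℕ → Bool, s 0 = true ∧ Steer x s :=
  Pool.Agent.H.MP_814ec7_co.main

end Pool.Agent.Results.MP_814ec7_co.Yes
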